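import Pool.Agent.H58.FL.Targets

/-!
# Row CLU of the board flb_modules: clusters from the exchange property
-/

set_option autoImplicit false

open Pool.Agent.H58.FL Pool.Agent.H59 Pool.Agent.H48.FR

namespace Pool.Agent.H37.FL

section
variable {X : Type} (m : X → X → X → X → ℤ)

/-- the value on a tuple -/
def MM (p : Fin 4 → X) : ℤ := m (p 0) (p 1) (p 2) (p 3)

theorem MM_swap (S : Set X)
    (h1 : ∀ x ∈ S, ∀ y ∈ S, ∀ z ∈ S, ∀ w ∈ S, m y x z w = -m x y z w ∧ m x z y w = -m x y z w ∧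
      m x y w z = -m x y z w ∧ |m x y z w| ≤ 1) (p : Fin 4 → X) (hp : ∀ i, p i ∈ S)
    (i j : Fin 4) (hij : i ≠ j) : MM m (p ∘ Equiv.swap i j) = - MM m p := by
  have e01 : ∀ x ∈ S, ∀ y ∈ S, ∀ z ∈ S, ∀ w ∈ S, m y x z w = -m x y z w :=
    fun x hx y hy z hz w hw => (h1 x hx y hy z hz w hw).1
  have e12 : ∀ x ∈ S, ∀ y ∈ S, ∀ z ∈ S, ∀ w ∈ S, m x z y w = -m x y z w :=
    fun x hx y hy z hz w hw => (h1 x hx y hy z hz w hw).2.1
  have e23 : ∀ x ∈ S, ∀ y ∈ S, ∀ z ∈ S, ∀ w ∈ S, m x y w z = -m x y z w :=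
    fun x hx y hy z hz w hw => (h1 x hx y hy z hz w hw).2.2.1
  have e02 : ∀ x ∈ S, ∀ y ∈ S, ∀ z ∈ S, ∀ w ∈ S, m z y x w = -m x y z w := by
    intro x hx y hy z hz w hw
    rw [e01 y hy z hz x hx w hw, e12 y hy x hx z hz w hw, e01 x hx y hy z hz w hw]
    ring
  have e13 : ∀ x ∈ S, ∀ y ∈ S, ∀ z ∈ S, ∀ w ∈ S, m x w z y = -m x y z w := by
    intro x hx y hy z hz w hw
    rw [e12 x hx z hz w hw y hy, e23 x hx z hz y hy w hw, e12 x hx y hy z hz w hw]
    ring
  have e03 : ∀ x ∈ S, ∀ y ∈ S, ∀ z ∈ S, ∀ w ∈ S, m w y z x = -m x y z w := by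
    intro x hx y hy z hz w hw
    rw [e02 z hz y hy w hw x hx, e23 z hz y hy x hx w hw, e02 x hx y hy z hz w hw]
    ring
  have a0 := hp 0
  have a1 := hp 1
  have a2 := hp 2
  have a3 := hp 3
  unfold MM
  simp only [Function.comp]
  fin_cases i <;> fin_cases j <;> first | exact absurd rfl hij | skip
  · exact e01 _ a0 _ a1 _ a2 _ a3
  · exact e02 _ a0 _ a1 _ a2 _ a3
  · exact e03 _ a0 _ a1 _ a2 _ a3
  · exact e01 _ a0 _ a1 _ a2 _ a3
  · exact e12 _ a0 _ a1 _ a2 _ a3
  · exact e13 _ a0 _ a1 _ a2 _ a3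
  · exact e02 _ a0 _ a1 _ a2 _ a3
  · exact e12 _ a0 _ a1 _ a2 _ a3
  · exact e23 _ a0 _ a1 _ a2 _ a3
  · exact e03 _ a0 _ a1 _ a2 _ a3
  · exact e13 _ a0 _ a1 _ a2 _ a3
  · exact e23 _ a0 _ a1 _ a2 _ a3

theorem MM_perm (S : Set X)
    (h1 : ∀ x ∈ S, ∀ y ∈ S, ∀ z ∈ S, ∀ w ∈ S, m y x z w = -m x y z w ∧ m x z y w = -m x y z w ∧
      m x y w z = -m x y z w ∧ |m x y z w| ≤ 1) (g : Equiv.Perm (Fin 4)) :
    ∀ (p : Fin 4 → X), (∀ i, p i ∈ S) →
      MM m (p ∘ g) = ((Equiv.Perm.sign g : ℤˣ) : ℤ) * MM m p := by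
  induction g using Equiv.Perm.swap_induction_on with
  | one =>
    intro p hp
    simp
  | swap_mul g i j hij ih =>
    intro p hp
    have h2 : p ∘ ((Equiv.swap i j * g : Equiv.Perm (Fin 4))) = (p ∘ Equiv.swap i j) ∘ g := by
      funext k
      rfl
    rw [h2, ih (p ∘ Equiv.swap i j) (fun k => hp _), MM_swap m S h1 p hp i j hij,
      Equiv.Perm.sign_mul, Equiv.Perm.sign_swap hij]
    push_cast
    ring

end

theorem sg4_perm : ∀ g : Equiv.Perm (Fin 4),
    sg4 (g 0) (g 1) (g 2) (g 3) = ((Equiv.Perm.sign g : ℤˣ) : ℤ) := by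
  decide +kernel

theorem sg4_eq : ∀ t : Fin 4 → Fin 4, (∃ i j, i ≠ j ∧ t i = t j) →
    sg4 (t 0) (t 1) (t 2) (t 3) = 0 := by
  decide +kernel

theorem pf_CLU : T_CLU := by
  classical
  intro X S m far h1 h2 h3 h4 h5 h6
  -- the exchange property on tuples
  have hA : ∀ p : Fin 4 → X, (∀ i, p i ∈ S) → MM m p ≠ 0 → ∀ v ∈ S,
      ∃ i, MM m (Function.update p i v) = MM m p ∧
        ∀ j, j ≠ i → MM m (Function.update p j v) = 0 := by
    intro p hp hM v hv
    have c1 := h2 (p 0) (hp 0) (p 1) (hp 1) (p 2) (hp 2) (p 3) (hp 3) v hv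
    have u0 : MM m (Function.update p 0 v) = m v (p 1) (p 2) (p 3) := rfl
    have u1 : MM m (Function.update p 1 v) = m (p 0) v (p 2) (p 3) := rfl
    have u2 : MM m (Function.update p 2 v) = m (p 0) (p 1) v (p 3) := rfl
    have u3 : MM m (Function.update p 3 v) = m (p 0) (p 1) (p 2) v := rfl
    have d1 : m (p 0) (p 1) (p 3) v = - m (p 0) (p 1) v (p 3) :=
      (h1 _ (hp 0) _ (hp 1) _ hv _ (hp 3)).2.2.1
    have d2 : m (p 0) (p 2) (p 3) v = m (p 0) v (p 2) (p 3) := by
      rw [(h1 _ (hp 0) _ (hp 2) _ hv _ (hp 3)).2.2.1, (h1 _ (hp 0) _ hv _ (hp 2) _ (hp 3)).2.1]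
      ring
    have d3 : m (p 1) (p 2) (p 3) v = - m v (p 1) (p 2) (p 3) := by
      rw [(h1 _ (hp 1) _ (hp 2) _ hv _ (hp 3)).2.2.1, (h1 _ (hp 1) _ hv _ (hp 2) _ (hp 3)).2.1,
        (h1 _ hv _ (hp 1) _ (hp 2) _ (hp 3)).1]
      ring
    rw [d1, d2, d3] at c1
    have hM' : m (p 0) (p 1) (p 2) (p 3) ≠ 0 := hM
    rcases h3 _ (hp 0) _ (hp 1) _ (hp 2) _ (hp 3) v hv hM' with h | h | h | h
    · obtain ⟨-, q1, q2, q3⟩ := h
      refine ⟨0, ?_, ?_⟩
      · rw [u0]
        show _ = m (p 0) (p 1) (p 2) (p 3)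
        linarith
      · intro j hj
        fin_cases j
        · exact absurd rfl hj
        · exact u1.trans q1
        · exact u2.trans q2
        · exact u3.trans q3
    · obtain ⟨q0, -, q2, q3⟩ := h
      refine ⟨1, ?_, ?_⟩
      · rw [u1]
        show _ = m (p 0) (p 1) (p 2) (p 3)
        linarith
      · intro j hj
        fin_cases j
        · exact u0.trans q0
        · exact absurd rfl hj
        · exact u2.trans q2
        · exact u3.trans q3
    · obtain ⟨q0, q1, -, q3⟩ := h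
      refine ⟨2, ?_, ?_⟩
      · rw [u2]
        show _ = m (p 0) (p 1) (p 2) (p 3)
        linarith
      · intro j hj
        fin_cases j
        · exact u0.trans q0
        · exact u1.trans q1
        · exact absurd rfl hj
        · exact u3.trans q3
    · obtain ⟨q0, q1, q2, -⟩ := h
      refine ⟨3, ?_, ?_⟩
      · rw [u3]
        show _ = m (p 0) (p 1) (p 2) (p 3)
        linarith
      · intro j hj
        fin_cases j
        · exact u0.trans q0
        · exact u1.trans q1
        · exact u2.trans q2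
        · exact absurd rfl hj
  have hpm := MM_perm m S h1
  have hsg : ∀ g : Equiv.Perm (Fin 4), ((Equiv.Perm.sign g : ℤˣ) : ℤ) ≠ 0 := fun g =>
    Units.ne_zero _
  -- vertices of a monopole are far
  have hB : ∀ p : Fin 4 → X, (∀ i, p i ∈ S) → MM m p ≠ 0 → ∀ i j, i ≠ j → far (p i) (p j) := by
    intro p hp hM i j hij
    obtain ⟨g, g0, g1⟩ : ∃ g : Equiv.Perm (Fin 4), g 0 = i ∧ g 1 = j := by
      revert i j
      decide +kernel
    have h7 : MM m (p ∘ g) ≠ 0 := by
      rw [hpm g p hp]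
      exact mul_ne_zero (hsg g) hM
    have h8 := h4 (p (g 0)) (hp _) (p (g 1)) (hp _) (p (g 2)) (hp _) (p (g 3)) (hp _) h7
    rw [g0, g1] at h8
    exact h8
  -- exchange of a vertex
  have hC : ∀ p : Fin 4 → X, (∀ i, p i ∈ S) → MM m p ≠ 0 → ∀ v ∈ S, ∀ i,
      MM m (Function.update p i v) = MM m p → ¬ far (p i) v := by
    intro p hp hM v hv i hi
    have hup : ∀ k, Function.update p i v k ∈ S := by
      intro k
      by_cases hk : k = i
      · rw [hk, Function.update_self]
        exact hv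
      · rw [Function.update_of_ne hk]
        exact hp k
    have e1 := hpm (Equiv.swap i 3) p hp
    have e2 := hpm (Equiv.swap i 3) (Function.update p i v) hup
    have e3 : (Function.update p i v) ∘ (Equiv.swap i 3) =
        Function.update (p ∘ Equiv.swap i 3) 3 v := by
      funext k
      simp only [Function.comp]
      by_cases hk : k = 3
      · subst hk
        rw [Equiv.swap_apply_right, Function.update_self, Function.update_self]
      · have hne : (Equiv.swap i 3) k ≠ i := by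
          intro h
          apply hk
          rw [Equiv.swap_apply_eq_iff, Equiv.swap_apply_left] at h
          exact h
        rw [Function.update_of_ne hk, Function.update_of_ne hne]
        rfl
    rw [e3, hi] at e2
    have h7 : MM m (p ∘ Equiv.swap i 3) ≠ 0 := by
      rw [e1]
      exact mul_ne_zero (hsg _) hM
    have h8 := h5 _ (hp (Equiv.swap i 3 0)) _ (hp (Equiv.swap i 3 1)) _ (hp (Equiv.swap i 3 2)) _
      (hp (Equiv.swap i 3 3)) v hv h7 (e2.trans e1.symm)
    rw [Equiv.swap_apply_right] at h8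
    exact h8
  -- a positive monopole
  obtain ⟨p, hp, hM1⟩ : ∃ p : Fin 4 → X, (∀ i, p i ∈ S) ∧ MM m p = 1 := by
    obtain ⟨x, hx, y, hy, z, hz, w, hw, hm⟩ := h6
    obtain ⟨e1, -, -, e4⟩ := h1 x hx y hy z hz w hw
    have hcase : m x y z w = 1 ∨ m x y z w = -1 := by
      rw [abs_le] at e4
      omega
    rcases hcase with h | h
    · refine ⟨![x, y, z, w], ?_, h⟩
      intro i
      fin_cases i
      · exact hx
      · exact hy
      · exact hz
      · exact hw
    · refine ⟨![y, x, z, w], ?_, ?_⟩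
      · intro i
        fin_cases i
        · exact hy
        · exact hx
        · exact hz
        · exact hw
      · show m y x z w = 1
        rw [e1, h]
        rfl
  have hM0 : MM m p ≠ 0 := by
    rw [hM1]
    exact one_ne_zero
  have hex : ∀ v : X, ∃ i : Fin 4, v ∈ S → MM m (Function.update p i v) = 1 ∧
      ∀ j, j ≠ i → MM m (Function.update p j v) = 0 := by
    intro v
    by_cases hv : v ∈ S
    · obtain ⟨i, hi, hj⟩ := hA p hp hM0 v hv
      exact ⟨i, fun _ => ⟨hi.trans hM1, hj⟩⟩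
    · exact ⟨0, fun h => absurd h hv⟩
  choose c hc using hex
  have hcp : ∀ i, c (p i) = i := by
    intro i
    by_contra hne
    have h7 := (hc (p i) (hp i)).2 i (fun h => hne h.symm)
    rw [Function.update_eq_self] at h7
    exact hM0 h7
  have hupS : ∀ (q : Fin 4 → X), (∀ i, q i ∈ S) → ∀ v ∈ S, ∀ i k, Function.update q i v k ∈ S := by
    intro q hq v hv i k
    by_cases hk : k = i
    · rw [hk, Function.update_self]
      exact hv
    · rw [Function.update_of_ne hk]
      exact hq k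
  -- (a)
  have ha : ∀ v ∈ S, ∀ w ∈ S, c v = c w → ¬ far v w := by
    intro v hv w hw hvw
    have hq := hupS p hp v hv (c v)
    have h7 := hC (Function.update p (c v) v) hq
      (by rw [(hc v hv).1]; exact one_ne_zero) w hw (c v) (by
        rw [Function.update_idem, (hc v hv).1, hvw]
        exact (hc w hw).1)
    rw [Function.update_self] at h7
    exact h7
  -- (b)
  have hb : ∀ q : Fin 4 → X, (∀ i, q i ∈ S) → (∀ i, c (q i) = i) → MM m q = 1 → ∀ u ∈ S,
      MM m (Function.update q (c u) u) = 1 ∧ ∀ i, c (Function.update q (c u) u i) = i := by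
    intro q hq hcq hMq u hu
    constructor
    · obtain ⟨k, hk, -⟩ := hA q hq (by rw [hMq]; exact one_ne_zero) u hu
      by_cases hkj : k = c u
      · rw [← hkj, hk, hMq]
      · exfalso
        have h7 := hB (Function.update q k u) (hupS q hq u hu k)
          (by rw [hk, hMq]; exact one_ne_zero) k (c u) hkj
        rw [Function.update_self, Function.update_of_ne (fun h => hkj h.symm)] at h7
        exact ha u hu (q (c u)) (hq _) (hcq _).symm h7
    · intro i
      by_cases hi : i = c u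
      · rw [hi, Function.update_self]
      · rw [Function.update_of_ne hi]
        exact hcq i
  -- transversals are monopoles
  have ht : ∀ v : Fin 4 → X, (∀ i, v i ∈ S) → (∀ i, c (v i) = i) → MM m v = 1 := by
    intro v hv hcv
    have s0 := hb p hp hcp hM1 (v 0) (hv 0)
    rw [hcv 0] at s0
    have s1 := hb _ (hupS p hp (v 0) (hv 0) 0) s0.2 s0.1 (v 1) (hv 1)
    rw [hcv 1] at s1
    have s2 := hb _ (hupS _ (hupS p hp (v 0) (hv 0) 0) (v 1) (hv 1) 1) s1.2 s1.1 (v 2) (hv 2)
    rw [hcv 2] at s2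
    have s3 := hb _ (hupS _ (hupS _ (hupS p hp (v 0) (hv 0) 0) (v 1) (hv 1) 1) (v 2) (hv 2) 2)
      s2.2 s2.1 (v 3) (hv 3)
    rw [hcv 3] at s3
    exact s3.1
  refine ⟨c, ?_⟩
  intro x hx y hy z hz w hw
  have htS : ∀ i, (![x, y, z, w] : Fin 4 → X) i ∈ S := by
    intro i
    fin_cases i
    · exact hx
    · exact hy
    · exact hz
    · exact hw
  by_cases hinj : Function.Injective (fun i => c ((![x, y, z, w] : Fin 4 → X) i))
  · have hbij := Finite.injective_iff_bijective.mp hinj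
    set g : Equiv.Perm (Fin 4) := Equiv.ofBijective _ hbij with hg
    have hgi : ∀ i, g i = c ((![x, y, z, w] : Fin 4 → X) i) := fun i => rfl
    have hv1 := ht ((![x, y, z, w] : Fin 4 → X) ∘ g.symm) (fun i => htS _) (fun i => by
      show c ((![x, y, z, w] : Fin 4 → X) (g.symm i)) = i
      rw [← hgi, Equiv.apply_symm_apply])
    have hv2 := hpm g ((![x, y, z, w] : Fin 4 → X) ∘ g.symm) (fun i => htS _)
    rw [hv1, mul_one] at hv2
    have hv3 : ((![x, y, z, w] : Fin 4 → X) ∘ g.symm) ∘ g = ![x, y, z, w] := by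
      funext k
      show (![x, y, z, w] : Fin 4 → X) (g.symm (g k)) = _
      rw [Equiv.symm_apply_apply]
    rw [hv3, ← sg4_perm g] at hv2
    exact hv2
  · have hne : ∃ i j, i ≠ j ∧ c ((![x, y, z, w] : Fin 4 → X) i) = c ((![x, y, z, w] : Fin 4 → X) j) := by
      by_contra hcon
      apply hinj
      intro i j hij
      by_contra hij'
      exact hcon ⟨i, j, hij', hij⟩
    have hz0 := sg4_eq (fun i => c ((![x, y, z, w] : Fin 4 → X) i)) hne
    have hm0 : MM m (![x, y, z, w] : Fin 4 → X) = 0 := by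
      by_contra hmn
      obtain ⟨i, j, hij, hcij⟩ := hne
      exact ha _ (htS i) _ (htS j) hcij (hB _ htS hmn i j hij)
    exact hm0.trans hz0.symm

end Pool.Agent.H37.FL
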