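import Pool.Agent.H58.FL.TargetsB
import Pool.Agent.H48.FR.All

/-! Row DAT of flc_modules: the data of the contraction. -/

set_option autoImplicit false

namespace Pool.Agent.H37.FL

open Pool.Agent.H58.FL Pool.Agent.H59 Pool.Agent.H48.FR

theorem pf_DAT : T_DAT := by
  intro j r hj h1 h2
  have hf : Module.finrank ℝ ℂ = 2 := Complex.finrank_real_complex
  have hdim : Module.finrank ℝ ℂ * j < Nat.multichoose (Module.finrank ℝ ℂ) (2 * j + 1) := by
    rw [hf, Nat.multichoose_two]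
    omega
  obtain ⟨g, hg⟩ := exists_sel (𝕜 := ℂ) hj hdim
  exact co_sel (𝕜 := ℂ) Pool.Agent.H42.FR.sp Pool.Agent.H89.FR.DS.ds Pool.Agent.H69.FR.rz
    Pool.Agent.H50.FR.pa hg hj h1 h2

end Pool.Agent.H37.FL
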