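import Pool.Agent.H58.FL.Targets

/-!
# Row EXI of the board flb_modules: the main inequality
-/

set_option autoImplicit false

open Pool.Agent.H58.FL Pool.Agent.H59 Pool.Agent.H48.FR ComplexConjugate

namespace Pool.Agent.H37.FL

theorem exi_phases (A B G B1 G1 : ℂ) (F4 F5 : ℝ) (hA : A ≠ 0) (hG : G ≠ 0) (hG1 : G1 ≠ 0)
    (h4 : A * B * G = (‖A‖ : ℂ) * ‖B‖ * ‖G‖ * Complex.exp (F4 * Complex.I))
    (h5 : A * B1 * G1 = (‖A‖ : ℂ) * ‖B1‖ * ‖G1‖ * Complex.exp (F5 * Complex.I)) :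
    ∃ ζ : ℂ, ‖ζ‖ = 1 ∧
      conj G * G1 * ζ = (‖G‖ : ℂ) * ‖G1‖ * Complex.exp (((-((F4 - F5) / 2) : ℝ) : ℂ) * Complex.I) ∧
      B * conj B1 * ζ = (‖B‖ : ℂ) * ‖B1‖ * Complex.exp ((((F4 - F5) / 2 : ℝ) : ℂ) * Complex.I) ∧
      ζ * (A * B * G1) =
        (‖A‖ : ℂ) * ‖B‖ * ‖G1‖ * Complex.exp ((((F4 + F5) / 2 : ℝ) : ℂ) * Complex.I) ∧
      conj ζ * (A * B1 * G) =
        (‖A‖ : ℂ) * ‖B1‖ * ‖G‖ * Complex.exp ((((F4 + F5) / 2 : ℝ) : ℂ) * Complex.I) := by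
  have a0 : (‖A‖ : ℂ) ≠ 0 := by
    rw [Ne, Complex.ofReal_eq_zero, norm_eq_zero]; exact hA
  have g0 : (‖G‖ : ℂ) ≠ 0 := by
    rw [Ne, Complex.ofReal_eq_zero, norm_eq_zero]; exact hG
  have g1 : (‖G1‖ : ℂ) ≠ 0 := by
    rw [Ne, Complex.ofReal_eq_zero, norm_eq_zero]; exact hG1
  have cG : conj G * G = (‖G‖ : ℂ) ^ 2 := Complex.conj_mul' G
  have cG1 : conj G1 * G1 = (‖G1‖ : ℂ) ^ 2 := Complex.conj_mul' G1
  have cA : conj A * A = (‖A‖ : ℂ) ^ 2 := Complex.conj_mul' A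
  set D : ℝ := (F4 - F5) / 2 with hD
  set P : ℝ := (F4 + F5) / 2 with hP
  have e1 : Complex.exp (((-D : ℝ) : ℂ) * Complex.I) * Complex.exp ((F4 : ℂ) * Complex.I) =
      Complex.exp ((P : ℂ) * Complex.I) := by
    rw [← Complex.exp_add]
    congr 1
    rw [hD, hP]
    push_cast
    ring
  have e2 : Complex.exp ((D : ℂ) * Complex.I) * Complex.exp ((F5 : ℂ) * Complex.I) =
      Complex.exp ((P : ℂ) * Complex.I) := by
    rw [← Complex.exp_add]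
    congr 1
    rw [hD, hP]
    push_cast
    ring
  have e3 : conj (Complex.exp (((-D : ℝ) : ℂ) * Complex.I)) = Complex.exp ((D : ℂ) * Complex.I) := by
    rw [← Complex.exp_conj, map_mul, Complex.conj_I, Complex.conj_ofReal]
    congr 1
    push_cast
    ring
  have e4 : conj (Complex.exp ((F5 : ℂ) * Complex.I)) = Complex.exp (((-F5 : ℝ) : ℂ) * Complex.I) := by
    rw [← Complex.exp_conj, map_mul, Complex.conj_I, Complex.conj_ofReal]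
    congr 1
    push_cast
    ring
  have e5 : Complex.exp (((-D : ℝ) : ℂ) * Complex.I) * (Complex.exp ((F4 : ℂ) * Complex.I) *
      Complex.exp (((-F5 : ℝ) : ℂ) * Complex.I)) = Complex.exp ((D : ℂ) * Complex.I) := by
    rw [← Complex.exp_add, ← Complex.exp_add]
    congr 1
    rw [hD]
    push_cast
    ring
  have h5c : conj A * conj B1 * conj G1 =
      (‖A‖ : ℂ) * ‖B1‖ * ‖G1‖ * Complex.exp (((-F5 : ℝ) : ℂ) * Complex.I) := by
    have := congrArg conj h5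
    rw [map_mul, map_mul, map_mul, map_mul, map_mul, e4, Complex.conj_ofReal, Complex.conj_ofReal,
      Complex.conj_ofReal] at this
    exact this
  set E : ℂ := Complex.exp (((-D : ℝ) : ℂ) * Complex.I) with hE
  refine ⟨E * (G / ‖G‖) * (conj G1 / ‖G1‖), ?_, ?_, ?_, ?_, ?_⟩
  · rw [norm_mul, norm_mul, norm_div, norm_div, Complex.norm_conj, Complex.norm_real,
      Complex.norm_real, norm_norm, norm_norm, div_self (norm_ne_zero_iff.2 hG),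
      div_self (norm_ne_zero_iff.2 hG1), hE, Complex.norm_exp_ofReal_mul_I]
    norm_num
  · have : conj G * G1 * (E * (G / ‖G‖) * (conj G1 / ‖G1‖)) =
        E * (conj G * G) * (conj G1 * G1) / (‖G‖ * ‖G1‖) := by ring
    rw [this, cG, cG1]
    field_simp
  · have h6 : B * conj B1 * G * conj G1 = (‖B‖ : ℂ) * ‖G‖ * ‖B1‖ * ‖G1‖ *
        (Complex.exp ((F4 : ℂ) * Complex.I) * Complex.exp (((-F5 : ℝ) : ℂ) * Complex.I)) := by
      apply mul_left_cancel₀ (pow_ne_zero 2 a0)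
      rw [← cA]
      have : conj A * A * (B * conj B1 * G * conj G1) =
          (A * B * G) * (conj A * conj B1 * conj G1) := by ring
      rw [this, h4, h5c, cA]
      ring
    have : B * conj B1 * (E * (G / ‖G‖) * (conj G1 / ‖G1‖)) =
        E * (B * conj B1 * G * conj G1) / (‖G‖ * ‖G1‖) := by ring
    rw [this, h6, ← e5]
    field_simp
  · have : E * (G / ‖G‖) * (conj G1 / ‖G1‖) * (A * B * G1) =
        E * (A * B * G) * (conj G1 * G1) / (‖G‖ * ‖G1‖) := by ring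
    rw [this, h4, cG1, ← e1]
    field_simp
  · rw [map_mul, map_mul, map_div₀, map_div₀, Complex.conj_conj, Complex.conj_ofReal,
      Complex.conj_ofReal, e3]
    have : Complex.exp ((D : ℂ) * Complex.I) * (conj G / ‖G‖) * (G1 / ‖G1‖) * (A * B1 * G) =
        Complex.exp ((D : ℂ) * Complex.I) * (A * B1 * G1) * (conj G * G) / (‖G‖ * ‖G1‖) := by ring
    rw [this, h5, cG, ← e2]
    field_simp

theorem exi_re (r t : ℝ) : ((r : ℂ) * Complex.exp ((t : ℂ) * Complex.I)).re = r * Real.cos t := by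
  rw [Complex.re_ofReal_mul, Complex.exp_ofReal_mul_I_re]

theorem exi_real (ρ x y x1 y1 f4 f5 C c δ : ℝ) (hρ0 : 0 ≤ ρ) (hx0 : 0 ≤ x) (hy0 : 0 ≤ y)
    (hx10 : 0 ≤ x1) (hy10 : 0 ≤ y1) (hδ0 : 0 ≤ δ) (hρ : 5 / 16 ≤ ρ ^ 2) (hρ' : ρ ^ 2 ≤ 9 / 20)
    (hx : 5 / 16 ≤ x ^ 2) (hy : 5 / 16 ≤ y ^ 2) (hx1 : 5 / 16 ≤ x1 ^ 2) (hy1 : 5 / 16 ≤ y1 ^ 2)
    (hf4 : f4 ≤ 1 / 2) (hf5 : f5 ≤ 1 / 2) (hC : C ≤ 131 / 2000) (hc : 965 / 1000 ≤ c)
    (hc1 : c ≤ 1) (hsum : f4 + f5 = 2 * C * c) (hδ : δ ^ 2 ≤ 9 / 20)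
    (hmain : x ^ 2 + x1 ^ 2 + y ^ 2 + y1 ^ 2 + 2 * c * (x * x1 + y * y1) -
      2 * ρ * (x * y * f4 + x1 * y1 * f5 + (x1 * y + x * y1) * C) ≤ (1 - ρ ^ 2) * (2 + 2 * δ)) :
    False := by
  have hρ1 : ρ ≤ 6709 / 10000 := (sq_le_sq₀ hρ0 (by norm_num)).1 (hρ'.trans (by norm_num))
  have hδ1 : δ ≤ 6709 / 10000 := (sq_le_sq₀ hδ0 (by norm_num)).1 (hδ.trans (by norm_num))
  obtain ⟨r, hr0, hr⟩ : ∃ r : ℝ, 0 < r ∧ r ^ 2 = 5 / 16 :=
    ⟨Real.sqrt (5 / 16), Real.sqrt_pos.2 (by norm_num), Real.sq_sqrt (by norm_num)⟩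
  have hrx : r ≤ x := (sq_le_sq₀ hr0.le hx0).1 (hr.le.trans hx)
  have hry : r ≤ y := (sq_le_sq₀ hr0.le hy0).1 (hr.le.trans hy)
  have hrx1 : r ≤ x1 := (sq_le_sq₀ hr0.le hx10).1 (hr.le.trans hx1)
  have hry1 : r ≤ y1 := (sq_le_sq₀ hr0.le hy10).1 (hr.le.trans hy1)
  -- products with rho
  have q1 : ρ * f4 ≤ 34 / 100 := (mul_le_mul_of_nonneg_left hf4 hρ0).trans (by linarith)
  have q2 : ρ * f5 ≤ 34 / 100 := (mul_le_mul_of_nonneg_left hf5 hρ0).trans (by linarith)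
  have q3' : ρ * C ≤ ρ * (131 / 2000) := mul_le_mul_of_nonneg_left hC hρ0
  have q3 : ρ * C ≤ 44 / 1000 := q3'.trans (by linarith)
  obtain ⟨s, ex⟩ : ∃ s, x = r + s := ⟨x - r, by ring⟩
  obtain ⟨s1, ex1⟩ : ∃ s1, x1 = r + s1 := ⟨x1 - r, by ring⟩
  obtain ⟨t, ey⟩ : ∃ t, y = r + t := ⟨y - r, by ring⟩
  obtain ⟨t1, ey1⟩ : ∃ t1, y1 = r + t1 := ⟨y1 - r, by ring⟩
  have s0 : 0 ≤ s := by linarith
  have s10 : 0 ≤ s1 := by linarith
  have t0 : 0 ≤ t := by linarith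
  have t10 : 0 ≤ t1 := by linarith
  -- linear part
  have l1 : 0 ≤ r * s * (1 + c - ρ * f4 - ρ * C) :=
    mul_nonneg (mul_nonneg hr0.le s0) (by linarith)
  have l2 : 0 ≤ r * t * (1 + c - ρ * f4 - ρ * C) :=
    mul_nonneg (mul_nonneg hr0.le t0) (by linarith)
  have l3 : 0 ≤ r * s1 * (1 + c - ρ * f5 - ρ * C) :=
    mul_nonneg (mul_nonneg hr0.le s10) (by linarith)
  have l4 : 0 ≤ r * t1 * (1 + c - ρ * f5 - ρ * C) :=
    mul_nonneg (mul_nonneg hr0.le t10) (by linarith)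
  -- quadratic part
  have p1 : 0 ≤ s * t * (34 / 100 - ρ * f4) := mul_nonneg (mul_nonneg s0 t0) (by linarith)
  have p2 : 0 ≤ s1 * t1 * (34 / 100 - ρ * f5) := mul_nonneg (mul_nonneg s10 t10) (by linarith)
  have p3 : 0 ≤ s * t1 * (44 / 1000 - ρ * C) := mul_nonneg (mul_nonneg s0 t10) (by linarith)
  have p4 : 0 ≤ s1 * t * (44 / 1000 - ρ * C) := mul_nonneg (mul_nonneg s10 t0) (by linarith)
  have p5 : 0 ≤ c * (s * s1) := mul_nonneg (by linarith) (mul_nonneg s0 s10)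
  have p6 : 0 ≤ c * (t * t1) := mul_nonneg (by linarith) (mul_nonneg t0 t10)
  have hq : 0 ≤ s ^ 2 + s1 ^ 2 + t ^ 2 + t1 ^ 2 - 2 * (34 / 100 * (s * t) + 34 / 100 * (s1 * t1) +
      44 / 1000 * (s * t1 + s1 * t)) := by
    have : s ^ 2 + s1 ^ 2 + t ^ 2 + t1 ^ 2 - 2 * (34 / 100 * (s * t) + 34 / 100 * (s1 * t1) +
      44 / 1000 * (s * t1 + s1 * t)) = 34 / 100 * (s - t) ^ 2 + 34 / 100 * (s1 - t1) ^ 2 +
      44 / 1000 * (s - t1) ^ 2 + 44 / 1000 * (s1 - t) ^ 2 +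
      616 / 1000 * (s ^ 2 + s1 ^ 2 + t ^ 2 + t1 ^ 2) := by ring
    rw [this]
    positivity
  have hL : 4 * r ^ 2 * (1 + c) * (1 - ρ * C) ≤
      x ^ 2 + x1 ^ 2 + y ^ 2 + y1 ^ 2 + 2 * c * (x * x1 + y * y1) -
      2 * ρ * (x * y * f4 + x1 * y1 * f5 + (x1 * y + x * y1) * C) := by
    have hid : x ^ 2 + x1 ^ 2 + y ^ 2 + y1 ^ 2 + 2 * c * (x * x1 + y * y1) -
      2 * ρ * (x * y * f4 + x1 * y1 * f5 + (x1 * y + x * y1) * C) =
      (4 * r ^ 2 * (1 + c) - 2 * ρ * r ^ 2 * (f4 + f5) - 4 * ρ * r ^ 2 * C) +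
      2 * (r * s * (1 + c - ρ * f4 - ρ * C)) + 2 * (r * t * (1 + c - ρ * f4 - ρ * C)) +
      2 * (r * s1 * (1 + c - ρ * f5 - ρ * C)) + 2 * (r * t1 * (1 + c - ρ * f5 - ρ * C)) +
      (s ^ 2 + s1 ^ 2 + t ^ 2 + t1 ^ 2 - 2 * (34 / 100 * (s * t) + 34 / 100 * (s1 * t1) +
      44 / 1000 * (s * t1 + s1 * t))) + 2 * (s * t * (34 / 100 - ρ * f4)) +
      2 * (s1 * t1 * (34 / 100 - ρ * f5)) + 2 * (s * t1 * (44 / 1000 - ρ * C)) +
      2 * (s1 * t * (44 / 1000 - ρ * C)) + 2 * (c * (s * s1)) + 2 * (c * (t * t1)) := by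
      rw [ex, ex1, ey, ey1]
      ring
    have hid2 : 4 * r ^ 2 * (1 + c) - 2 * ρ * r ^ 2 * (2 * C * c) - 4 * ρ * r ^ 2 * C =
        4 * r ^ 2 * (1 + c) * (1 - ρ * C) := by ring
    rw [hid, hsum, hid2]
    generalize r * s * (1 + c - ρ * f4 - ρ * C) = z1 at *
    generalize r * t * (1 + c - ρ * f4 - ρ * C) = z2 at *
    generalize r * s1 * (1 + c - ρ * f5 - ρ * C) = z3 at *
    generalize r * t1 * (1 + c - ρ * f5 - ρ * C) = z4 at *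
    generalize s * t * (34 / 100 - ρ * f4) = z5 at *
    generalize s1 * t1 * (34 / 100 - ρ * f5) = z6 at *
    generalize s * t1 * (44 / 1000 - ρ * C) = z7 at *
    generalize s1 * t * (44 / 1000 - ρ * C) = z8 at *
    generalize c * (s * s1) = z9 at *
    generalize c * (t * t1) = z10 at *
    generalize s ^ 2 + s1 ^ 2 + t ^ 2 + t1 ^ 2 - 2 * (34 / 100 * (s * t) + 34 / 100 * (s1 * t1) +
      44 / 1000 * (s * t1 + s1 * t)) = z11 at *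
    generalize 4 * r ^ 2 * (1 + c) * (1 - ρ * C) = z12 at *
    linarith
  have h8 : (1 - 131 / 2000 * ρ) ≤ 1 - ρ * C := by linarith
  have h9 : 0 ≤ 1 - 131 / 2000 * ρ := by linarith
  have h10 : (1965 / 1000 : ℝ) ≤ 1 + c := by linarith
  have h7 := mul_le_mul h10 h8 h9 (by linarith : (0 : ℝ) ≤ 1 + c)
  have h11 : (1 - ρ ^ 2) * (2 + 2 * δ) ≤ (1 - ρ ^ 2) * (2 + 2 * (6709 / 10000)) :=
    mul_le_mul_of_nonneg_left (by linarith) (by linarith)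
  have h12 := (hL.trans hmain).trans h11
  have h13 : 4 * r ^ 2 * (1 + c) * (1 - ρ * C) = 5 / 4 * ((1 + c) * (1 - ρ * C)) := by
    rw [hr]
    ring
  rw [h13] at h12
  have h14 := (mul_le_mul_of_nonneg_left h7 (by norm_num : (0 : ℝ) ≤ 5 / 4)).trans h12
  linarith

theorem pf_EXI (hGRM : T_GRM) (hNUM : T_NUM) : T_EXI := by
  intro E _ _ a b d e ha hb hd he Aab Aad Abd Aae Abe Fab _ _ _ _ h4 h5 hs hfar
  obtain ⟨-, nC, -, nc, -, -⟩ := hNUM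
  unfold Adj at Aab Aad Abd Aae Abe
  unfold Far at Fab hfar
  set F4 : ℝ := ar a b d with hF4
  set F5 : ℝ := ar a b e with hF5
  have hsq : ∀ z : ℂ, 5 / 16 ≤ ‖z‖ ^ 2 → z ≠ 0 := by
    intro z hz h0
    rw [h0, norm_zero] at hz
    norm_num at hz
  have hda : ‖inner ℂ d a‖ = ‖inner ℂ a d‖ := by rw [← inner_conj_symm, Complex.norm_conj]
  have hea : ‖inner ℂ e a‖ = ‖inner ℂ a e‖ := by rw [← inner_conj_symm, Complex.norm_conj]
  have n1 : (inner ℂ a b : ℂ) ≠ 0 := hsq _ Aab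
  have n3 : (inner ℂ d a : ℂ) ≠ 0 := hsq _ (by rw [hda]; exact Aad)
  have n5 : (inner ℂ e a : ℂ) ≠ 0 := hsq _ (by rw [hea]; exact Aae)
  have k4 : (inner ℂ a b : ℂ) * inner ℂ b d * inner ℂ d a = (‖(inner ℂ a b : ℂ)‖ : ℂ) *
      ‖(inner ℂ b d : ℂ)‖ * ‖(inner ℂ d a : ℂ)‖ * Complex.exp (F4 * Complex.I) := by
    have := Complex.norm_mul_exp_arg_mul_I ((inner ℂ a b : ℂ) * inner ℂ b d * inner ℂ d a)
    rw [norm_mul, norm_mul] at this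
    rw [← this, hF4]
    push_cast
    rfl
  have k5 : (inner ℂ a b : ℂ) * inner ℂ b e * inner ℂ e a = (‖(inner ℂ a b : ℂ)‖ : ℂ) *
      ‖(inner ℂ b e : ℂ)‖ * ‖(inner ℂ e a : ℂ)‖ * Complex.exp (F5 * Complex.I) := by
    have := Complex.norm_mul_exp_arg_mul_I ((inner ℂ a b : ℂ) * inner ℂ b e * inner ℂ e a)
    rw [norm_mul, norm_mul] at this
    rw [← this, hF5]
    push_cast
    rfl
  obtain ⟨ζ, hζ, z1, z2, z3, z4⟩ := exi_phases _ _ _ _ _ F4 F5 n1 n3 n5 k4 k5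
  have hG := hGRM E a b (ζ • d + e) ha hb
  have hζ2 : conj ζ * ζ = 1 := by
    rw [Complex.conj_mul', hζ]
    norm_num
  have i1 : (inner ℂ a (ζ • d + e) : ℂ) = ζ * inner ℂ a d + inner ℂ a e := by
    rw [inner_add_right, inner_smul_right]
  have i2 : (inner ℂ b (ζ • d + e) : ℂ) = ζ * inner ℂ b d + inner ℂ b e := by
    rw [inner_add_right, inner_smul_right]
  have i3 : (inner ℂ (ζ • d + e) a : ℂ) = conj ζ * inner ℂ d a + inner ℂ e a := by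
    rw [inner_add_left, inner_smul_left]
  have hadd : ∀ z w : ℂ, ‖z + w‖ ^ 2 = ‖z‖ ^ 2 + ‖w‖ ^ 2 + 2 * (z * conj w).re := by
    intro z w
    rw [← Complex.normSq_eq_norm_sq, ← Complex.normSq_eq_norm_sq, ← Complex.normSq_eq_norm_sq,
      Complex.normSq_add]
  have j1 : ‖(inner ℂ a (ζ • d + e) : ℂ)‖ ^ 2 = ‖(inner ℂ a d : ℂ)‖ ^ 2 +
      ‖(inner ℂ a e : ℂ)‖ ^ 2 + 2 * (‖(inner ℂ a d : ℂ)‖ * ‖(inner ℂ a e : ℂ)‖ *
        Real.cos ((F4 - F5) / 2)) := by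
    rw [i1, hadd, norm_mul, hζ, one_mul]
    have : ζ * inner ℂ a d * conj (inner ℂ a e : ℂ) =
        ((‖(inner ℂ a d : ℂ)‖ * ‖(inner ℂ a e : ℂ)‖ : ℝ) : ℂ) *
          Complex.exp (((-((F4 - F5) / 2) : ℝ) : ℂ) * Complex.I) := by
      have h9 : ζ * inner ℂ a d * conj (inner ℂ a e : ℂ) =
          conj (inner ℂ d a : ℂ) * inner ℂ e a * ζ := by
        rw [inner_conj_symm, inner_conj_symm]
        ring
      rw [h9, z1, hda, hea]
      push_cast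
      ring
    rw [this, exi_re, Real.cos_neg]
  have j2 : ‖(inner ℂ b (ζ • d + e) : ℂ)‖ ^ 2 = ‖(inner ℂ b d : ℂ)‖ ^ 2 +
      ‖(inner ℂ b e : ℂ)‖ ^ 2 + 2 * (‖(inner ℂ b d : ℂ)‖ * ‖(inner ℂ b e : ℂ)‖ *
        Real.cos ((F4 - F5) / 2)) := by
    rw [i2, hadd, norm_mul, hζ, one_mul]
    have : ζ * inner ℂ b d * conj (inner ℂ b e : ℂ) =
        ((‖(inner ℂ b d : ℂ)‖ * ‖(inner ℂ b e : ℂ)‖ : ℝ) : ℂ) *
          Complex.exp ((((F4 - F5) / 2 : ℝ) : ℂ) * Complex.I) := by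
      have h9 : ζ * inner ℂ b d * conj (inner ℂ b e : ℂ) =
          inner ℂ b d * conj (inner ℂ b e : ℂ) * ζ := by ring
      rw [h9, z2]
      push_cast
      ring
    rw [this, exi_re]
  have j3 : ((inner ℂ a b : ℂ) * inner ℂ b (ζ • d + e) * inner ℂ (ζ • d + e) a).re =
      ‖(inner ℂ a b : ℂ)‖ * (‖(inner ℂ a d : ℂ)‖ * ‖(inner ℂ b d : ℂ)‖ * Real.cos F4 +
        ‖(inner ℂ a e : ℂ)‖ * ‖(inner ℂ b e : ℂ)‖ * Real.cos F5 +
        (‖(inner ℂ a e : ℂ)‖ * ‖(inner ℂ b d : ℂ)‖ + ‖(inner ℂ a d : ℂ)‖ *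
          ‖(inner ℂ b e : ℂ)‖) * Real.cos ((F4 + F5) / 2)) := by
    have h9 : (inner ℂ a b : ℂ) * inner ℂ b (ζ • d + e) * inner ℂ (ζ • d + e) a =
        inner ℂ a b * inner ℂ b d * inner ℂ d a + inner ℂ a b * inner ℂ b e * inner ℂ e a +
        ζ * (inner ℂ a b * inner ℂ b d * inner ℂ e a) +
        conj ζ * (inner ℂ a b * inner ℂ b e * inner ℂ d a) := by
      rw [i2, i3]
      linear_combination (inner ℂ a b * inner ℂ b d * inner ℂ d a) * hζ2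
    rw [h9, k4, k5, z3, z4, hda, hea]
    have e1 : ∀ (u v w : ℝ) (t : ℝ), ((u : ℂ) * v * w * Complex.exp ((t : ℂ) * Complex.I)).re =
        u * v * w * Real.cos t := by
      intro u v w t
      have := exi_re (u * v * w) t
      push_cast at this
      exact this
    rw [Complex.add_re, Complex.add_re, Complex.add_re, e1, e1, e1, e1]
    ring
  have j4 : ‖ζ • d + e‖ ^ 2 ≤ 2 + 2 * ‖(inner ℂ d e : ℂ)‖ := by
    have h10 : ‖ζ • d + e‖ ^ 2 = ‖ζ • d‖ ^ 2 + 2 * RCLike.re (inner ℂ (ζ • d) e : ℂ) + ‖e‖ ^ 2 :=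
      norm_add_sq (𝕜 := ℂ) (ζ • d) e
    rw [h10, norm_smul, hζ, hd, he, inner_smul_left]
    have h9 : RCLike.re (conj ζ * (inner ℂ d e : ℂ)) ≤ ‖(inner ℂ d e : ℂ)‖ := by
      refine (RCLike.re_le_norm _).trans ?_
      rw [norm_mul, Complex.norm_conj, hζ, one_mul]
    linarith
  rw [j1, j2, j3] at hG
  -- angles
  have hpi := Real.pi_pos
  have a1 : 19 * Real.pi / 48 < F4 := by linarith
  have a2 : 19 * Real.pi / 48 < F5 := by linarith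
  have c4 : Real.cos F4 ≤ 1 / 2 := by
    rw [← Real.cos_pi_div_three]
    exact Real.cos_le_cos_of_nonneg_of_le_pi (by positivity) (by linarith) (by linarith)
  have c5 : Real.cos F5 ≤ 1 / 2 := by
    rw [← Real.cos_pi_div_three]
    exact Real.cos_le_cos_of_nonneg_of_le_pi (by positivity) (by linarith) (by linarith)
  have cP : Real.cos ((F4 + F5) / 2) ≤ 131 / 2000 :=
    (Real.cos_le_cos_of_nonneg_of_le_pi (by positivity) (by linarith) (by linarith)).trans nC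
  have cD : 965 / 1000 ≤ Real.cos ((F4 - F5) / 2) := by
    rw [← Real.cos_abs ((F4 - F5) / 2)]
    refine nc.trans (Real.cos_le_cos_of_nonneg_of_le_pi (abs_nonneg _) (by linarith) ?_)
    rw [abs_le]
    constructor <;> linarith
  have csum : Real.cos F4 + Real.cos F5 =
      2 * Real.cos ((F4 + F5) / 2) * Real.cos ((F4 - F5) / 2) := Real.cos_add_cos F4 F5
  refine exi_real ‖(inner ℂ a b : ℂ)‖ ‖(inner ℂ a d : ℂ)‖ ‖(inner ℂ b d : ℂ)‖ ‖(inner ℂ a e : ℂ)‖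
    ‖(inner ℂ b e : ℂ)‖ (Real.cos F4) (Real.cos F5) (Real.cos ((F4 + F5) / 2))
    (Real.cos ((F4 - F5) / 2)) ‖(inner ℂ d e : ℂ)‖ (norm_nonneg _) (norm_nonneg _) (norm_nonneg _)
    (norm_nonneg _) (norm_nonneg _) (norm_nonneg _) Aab Fab Aad Abd Aae Abe c4 c5 cP cD
    (Real.cos_le_one _) csum hfar ?_
  have h1r : 0 ≤ 1 - ‖(inner ℂ a b : ℂ)‖ ^ 2 := by linarith
  have h12 := hG.trans (mul_le_mul_of_nonneg_left j4 h1r)
  linarith

end Pool.Agent.H37.FL
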