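import Pool.Agent.H58.FL.TargetsB
import Pool.Agent.H42.FR.SP
import Pool.Agent.H50.FR.PA

/-! Row HMT of flc_modules: the homotopy. -/

set_option autoImplicit false

namespace Pool.Agent.H37.FL

open Pool.Agent.H58.FL Pool.Agent.H59 Pool.Agent.H48.FR

theorem compactCP (n : ℕ) : CompactSpace (CPn n) := by
  obtain ⟨hcS, _, hπc, hπs⟩ := Pool.Agent.H42.FR.sp ℂ n
  have h : Set.range (prS : Sph ℂ n → PP ℂ n) = Set.univ := hπs.range_eq
  have h1 : IsCompact (Set.univ : Set (PP ℂ n)) := by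
    rw [← h]
    exact isCompact_range hπc
  exact ⟨h1⟩

theorem pf_HMT (hFAM : T_FAM) (hISO : T_ISO) (hDAT : T_DAT) : T_HMT := by
  intro j l ε hε hj hlt
  obtain ⟨ι, A, hι, hA, hiso, hmP⟩ := hISO j l
  obtain ⟨h1, -⟩ := Pool.Agent.H50.FR.pa.1 j hj
  have hpi := Real.pi_pos
  have hmin : 2 * rad j < min (2 * ε) (Real.pi / 2) := lt_min (by linarith) (by linarith)
  obtain ⟨Δ, hΔ⟩ := hDAT j ((2 * rad j + min (2 * ε) (Real.pi / 2)) / 2) hj (by linarith)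
    (by have := min_le_right (2 * ε) (Real.pi / 2); linarith)
  have hr : Δ.r / 2 < ε := by
    rw [hΔ]
    have := min_le_left (2 * ε) (Real.pi / 2)
    linarith
  haveI := compactCP j
  haveI := compactCP l
  haveI := compactCP (j + l)
  obtain ⟨hcS, hcQ, _, _⟩ := Pool.Agent.H42.FR.sp ℂ j
  haveI : Nonempty (Usc ℂ) := ⟨⟨1, norm_one⟩⟩
  have hc : Continuous fun b : CPn l => kf (CPn (j + l)) ε hε (ι b Δ.p) :=
    (continuous_kf hε).comp (hι.comp (continuous_id.prodMk continuous_const))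
  refine ⟨⟨fun b => kf (CPn (j + l)) ε hε (ι b Δ.p), hc⟩, fun g₀ hg₀ => ?_⟩
  have hG := hFAM (CPn (j + l)) (CPn j) (CPn l) (Sph ℂ j) (Usc ℂ) Δ ι hι hiso ε hε hr
    ⟨fun p => kf (CPn (j + l)) ε hε (ι p.1 p.2), (continuous_kf hε).comp hι⟩
    ⟨fun p => kf (CPn (j + l)) ε hε (ι p.1 Δ.p), hc.comp continuous_fst⟩
    (fun _ => rfl) (fun _ => rfl)
  let α : C(CPn l × CPn j, CPn l × CPn j) := ⟨fun p => (p.1, A p.1 p.2),
    continuous_fst.prodMk hA⟩
  have h2 := ContinuousMap.Homotopic.comp hG (ContinuousMap.Homotopic.refl α)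
  have e : g₀ = (⟨fun p => kf (CPn (j + l)) ε hε (ι p.1 p.2), (continuous_kf hε).comp hι⟩ :
      C(CPn l × CPn j, UE (CPn (j + l)) ε)).comp α := by
    ext1 p
    rw [hg₀]
    change kf (CPn (j + l)) ε hε (mP p.2 p.1) = kf (CPn (j + l)) ε hε (ι p.1 (A p.1 p.2))
    rw [hmP]
  rw [e]
  exact h2

end Pool.Agent.H37.FL
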